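import Mathlib

set_option autoImplicit false

namespace Pool.Agent.K7.H92.SP

open Matrix

/-- The field with eight elements. -/
abbrev F := GaloisField 2 3

/-- The ambient group `GL_6(8)`. -/
abbrev GG := GL (Fin 6) F

noncomputable instance instFintypeF : Fintype F := Fintype.ofFinite F

theorem cardF : Fintype.card F = 8 := by
  rw [← Nat.card_eq_fintype_card, GaloisField.card 2 3 (by norm_num)]
  norm_num

theorem cardFu : Nat.card Fˣ = 7 := by
  classical
  rw [Nat.card_eq_fintype_card, Fintype.card_units, cardF]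

theorem pow7 (a : Fˣ) : a ^ 7 = 1 := by
  rw [← cardFu]; exact pow_card_eq_one'

/-- Permutation matrices. -/
noncomputable def pmM : Equiv.Perm (Fin 6) →* Matrix (Fin 6) (Fin 6) F where
  toFun s := Matrix.of fun i j => if i = s j then 1 else 0
  map_one' := by
    ext i j
    rw [Matrix.one_apply, Matrix.of_apply]
    rfl
  map_mul' s t := by
    ext i j
    rw [Matrix.mul_apply, Matrix.of_apply]
    simp only [Matrix.of_apply, mul_ite, mul_one, mul_zero, Finset.sum_ite_eq', Finset.mem_univ,
      if_true]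
    rfl

noncomputable def pm : Equiv.Perm (Fin 6) →* GG := pmM.toHomUnits

theorem pm_apply (s : Equiv.Perm (Fin 6)) (i j : Fin 6) :
    (pm s : Matrix (Fin 6) (Fin 6) F) i j = if i = s j then 1 else 0 := rfl

/-- Diagonal matrices. -/
noncomputable def dgM : (Fin 6 → Fˣ) →* Matrix (Fin 6) (Fin 6) F where
  toFun d := Matrix.diagonal fun i => (d i : F)
  map_one' := by
    simp
  map_mul' d e := by
    simp [Matrix.diagonal_mul_diagonal]

noncomputable def dg : (Fin 6 → Fˣ) →* GG := dgM.toHomUnits

theorem dg_apply (d : Fin 6 → Fˣ) (i j : Fin 6) :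
    (dg d : Matrix (Fin 6) (Fin 6) F) i j = if i = j then (d i : F) else 0 := by
  change Matrix.diagonal (fun i => (d i : F)) i j = _
  rw [Matrix.diagonal_apply]

theorem dg_val (d : Fin 6 → Fˣ) :
    (dg d : Matrix (Fin 6) (Fin 6) F) = Matrix.diagonal (fun i => (d i : F)) := rfl

theorem dg_inj : Function.Injective dg := by
  intro d e h
  ext i
  have := congrArg (fun g : GG => (g : Matrix (Fin 6) (Fin 6) F) i i) h
  simpa [dg_apply] using this

/-- the five-cycle -/
def sg : Equiv.Perm (Fin 6) := ⟨![1, 2, 3, 4, 0, 5], ![4, 0, 1, 2, 3, 5], by decide, by decide⟩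

theorem sg5 : sg ^ 5 = 1 := by decide

theorem sg_ne : sg ≠ 1 := by decide

theorem order_sg : orderOf sg = 5 := by
  have : Fact (Nat.Prime 5) := ⟨by norm_num⟩
  exact orderOf_eq_prime sg5 sg_ne

/-- The abstract group `C_7^6 ⋊ C_5`. -/
abbrev CC := Subgroup.zpowers sg

noncomputable def phi : CC →* MulAut (Fin 6 → Fˣ) := mulAutArrow

theorem phi_apply (s : CC) (d : Fin 6 → Fˣ) (i : Fin 6) :
    phi s d i = d ((s : Equiv.Perm (Fin 6))⁻¹ i) := rfl

abbrev G0 := (Fin 6 → Fˣ) ⋊[phi] CC

theorem compat (s : CC) (d : Fin 6 → Fˣ) :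
    dg (phi s d) = pm s * dg d * (pm s)⁻¹ := by
  rw [eq_mul_inv_iff_mul_eq]
  apply Units.ext
  ext i j
  simp only [Units.val_mul, Matrix.mul_apply, dg_apply, pm_apply, phi_apply]
  simp only [ite_mul, zero_mul, mul_ite, mul_one, mul_zero, one_mul]
  simp only [Finset.mem_univ, if_true, Finset.sum_ite_eq']
  by_cases h : i = (s : Equiv.Perm (Fin 6)) j
  · subst h
    simp
  · simp [h]

noncomputable def mono : G0 →* GG :=
  SemidirectProduct.lift dg (pm.comp CC.subtype) (by
    intro s
    ext1 d
    simpa using compat s d)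

theorem mono_apply (x : G0) : mono x = dg x.left * pm (x.right : Equiv.Perm (Fin 6)) := rfl

theorem mono_entry (x : G0) (i j : Fin 6) :
    (mono x : Matrix (Fin 6) (Fin 6) F) i j =
      if i = (x.right : Equiv.Perm (Fin 6)) j then (x.left i : F) else 0 := by
  rw [mono_apply]
  simp only [Units.val_mul, Matrix.mul_apply, dg_apply, pm_apply]
  simp only [ite_mul, zero_mul, mul_ite, mul_one, mul_zero, one_mul]
  simp

theorem mono_inj : Function.Injective mono := by
  rw [injective_iff_map_eq_one]
  intro x hx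
  have h : ∀ i j, (mono x : Matrix (Fin 6) (Fin 6) F) i j = if i = j then 1 else 0 := by
    intro i j
    rw [hx]
    simp [Matrix.one_apply]
  have hr : x.right = 1 := by
    apply Subtype.ext
    ext j
    by_contra hne
    have h1 := h ((x.right : Equiv.Perm (Fin 6)) j) j
    rw [mono_entry, if_pos rfl] at h1
    rw [if_neg (by
      intro hh
      apply hne
      rw [hh]
      rfl)] at h1
    exact (x.left _).ne_zero h1
  have hl : x.left = 1 := by
    ext i
    have h1 := h i i
    rw [mono_entry, hr] at h1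
    simpa using h1
  exact SemidirectProduct.ext hl hr

/-- The Hall subgroup. -/
noncomputable def H : Subgroup GG := mono.range

theorem card_CC : Nat.card CC = 5 := by
  rw [Nat.card_zpowers, order_sg]

theorem card_T : Nat.card (Fin 6 → Fˣ) = 7 ^ 6 := by
  rw [Nat.card_fun, cardFu]
  simp

theorem card_G0 : Nat.card G0 = 7 ^ 6 * 5 := by
  rw [Nat.card_congr SemidirectProduct.equivProd, Nat.card_prod, card_T, card_CC]

theorem card_H : Nat.card H = 7 ^ 6 * 5 := by
  rw [← card_G0]
  exact (Nat.card_congr (MonoidHom.ofInjective mono_inj).toEquiv).symm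

theorem hall : Nat.Coprime (Nat.card H) H.index := by
  have h1 := Subgroup.card_mul_index H
  have h2 : Nat.card GG = ∏ i : Fin 6, (8 ^ 6 - 8 ^ (i : ℕ)) := by
    rw [Matrix.card_GL_field, cardF]
  have h3 : ∏ i : Fin 6, (8 ^ 6 - 8 ^ (i : ℕ)) = 7 ^ 6 * 5 * 474110859069093497800753152 := by
    decide
  rw [h2, card_H, h3] at h1
  have h4 : H.index = 474110859069093497800753152 := Nat.eq_of_mul_eq_mul_left (by norm_num) h1
  rw [card_H, h4]
  norm_num

/-- the isomorphism onto the Hall subgroup -/
noncomputable def eH : G0 ≃* H := MonoidHom.ofInjective mono_inj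

theorem eH_val (x : G0) : (eH x : GG) = mono x := rfl

/-- The tower. -/
noncomputable def NN : ℕ → Subgroup H
  | 0 => ⊥
  | 1 => (SemidirectProduct.inl : (Fin 6 → Fˣ) →* G0).range.map eH.toMonoidHom
  | _ => ⊤

theorem card_N1 : Nat.card (NN 1) = 7 ^ 6 := by
  have h1 : Nat.card (NN 1) =
      Nat.card (SemidirectProduct.inl : (Fin 6 → Fˣ) →* G0).range := by
    exact Nat.card_congr ((Subgroup.equivMapOfInjective _ _ eH.injective).toEquiv.symm)
  rw [h1, ← card_T]
  exact Nat.card_congr (MonoidHom.ofInjective SemidirectProduct.inl_injective).toEquiv.symm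

theorem normal_N1 : (NN 1).Normal := by
  have h1 : (SemidirectProduct.inl : (Fin 6 → Fˣ) →* G0).range.Normal := by
    rw [SemidirectProduct.range_inl_eq_ker_rightHom]
    infer_instance
  exact h1.map _ eH.surjective

theorem fact7 : (7 ^ 6 * 5 : ℕ).factorization 7 = 6 := by
  rw [Nat.factorization_mul (by norm_num) (by norm_num), Nat.Prime.factorization_pow (by norm_num),
    Nat.Prime.factorization (by norm_num)]
  simp

theorem fact5 : (7 ^ 6 * 5 : ℕ).factorization 5 = 1 := by
  rw [Nat.factorization_mul (by norm_num) (by norm_num), Nat.Prime.factorization_pow (by norm_num),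
    Nat.Prime.factorization (by norm_num)]
  simp

theorem tower : ∃ (n : ℕ) (N : ℕ → Subgroup H), N 0 = ⊥ ∧ N n = ⊤ ∧
    (∀ i, i < n → N i ≤ N (i + 1) ∧ (N (i + 1)).Normal ∧
      ∃ p : ℕ, p.Prime ∧
        Nat.card (N (i + 1)) = Nat.card (N i) * p ^ (Nat.card H).factorization p) := by
  refine ⟨2, NN, rfl, rfl, ?_⟩
  intro i hi
  interval_cases i
  · refine ⟨bot_le, normal_N1, 7, by norm_num, ?_⟩
    rw [card_N1, card_H, fact7]
    simp [NN]
  · refine ⟨le_top, ?_, 5, by norm_num, ?_⟩
    · change (⊤ : Subgroup H).Normal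
      infer_instance
    · rw [card_N1]
      change Nat.card (⊤ : Subgroup H) = _
      rw [Subgroup.card_top, card_H, fact5, pow_one]


theorem two_eq : (2 : F) = 0 := CharTwo.two_eq_zero

/-- the involution `J - I` -/
noncomputable def gM : Matrix (Fin 6) (Fin 6) F := Matrix.of fun i j => if i = j then 0 else 1

theorem gM_sq : gM * gM = 1 := by
  ext i j
  rw [Matrix.mul_apply, Fin.sum_univ_six, Matrix.one_apply]
  fin_cases i <;> fin_cases j <;> simp [gM] <;> linear_combination 2 * two_eq

noncomputable def g : GG := ⟨gM, gM, gM_sq, gM_sq⟩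

theorem exists_zeta : ∃ z : Fˣ, z ≠ 1 := by
  have h : Nontrivial Fˣ := by
    rw [← Finite.one_lt_card_iff_nontrivial, cardFu]
    norm_num
  exact exists_ne 1

noncomputable def zeta : Fˣ := exists_zeta.choose

theorem zeta_ne : zeta ≠ 1 := exists_zeta.choose_spec

theorem zeta_ne' : (zeta : F) ≠ 1 := fun h => zeta_ne (Units.ext h)

/-- `z` -/
noncomputable def dz : Fin 6 → Fˣ := fun i => if i = 5 then 1 else zeta

noncomputable def dc : Fin 6 → Fˣ := fun i => if i = 5 then zeta else 1

noncomputable def z : GG := dg dz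

noncomputable def c : GG := dg dc

noncomputable def t : GG := pm sg

theorem fix5 (s : CC) : (s : Equiv.Perm (Fin 6)) 5 = 5 := by
  have h : Subgroup.zpowers sg ≤ MulAction.stabilizer (Equiv.Perm (Fin 6)) (5 : Fin 6) := by
    rw [Subgroup.zpowers_le]
    rw [MulAction.mem_stabilizer_iff]
    decide
  have := h s.2
  rwa [MulAction.mem_stabilizer_iff] at this

theorem inv_eq5 (s : CC) (i : Fin 6) : (s : Equiv.Perm (Fin 6))⁻¹ i = 5 ↔ i = 5 := by
  rw [Equiv.Perm.inv_eq_iff_eq, fix5]

theorem phi_dc (s : CC) : phi s dc = dc := by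
  ext1 i
  rw [phi_apply]
  simp only [dc, inv_eq5]

theorem phi_dz (s : CC) : phi s dz = dz := by
  ext1 i
  rw [phi_apply]
  simp only [dz, inv_eq5]

theorem pm_dg_comm (s : CC) (d : Fin 6 → Fˣ) (h : phi s d = d) :
    pm s * dg d = dg d * pm s := by
  have := compat s d
  rw [h, eq_mul_inv_iff_mul_eq] at this
  exact this.symm

theorem mem_cent (x : GG) : x ∈ Subgroup.centralizer {c} ↔
    ∀ i j, (x : Matrix (Fin 6) (Fin 6) F) i j * (dc j : F) =
      (dc i : F) * (x : Matrix (Fin 6) (Fin 6) F) i j := by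
  rw [Subgroup.mem_centralizer_singleton_iff]
  constructor
  · intro h i j
    have h1 := congrArg (fun y : GG => (y : Matrix (Fin 6) (Fin 6) F) i j) h
    simpa [c, dg_val, Matrix.mul_diagonal, Matrix.diagonal_mul] using h1
  · intro h
    apply Units.ext
    ext i j
    simpa [c, dg_val, Matrix.mul_diagonal, Matrix.diagonal_mul] using h i j

theorem H_le : H ≤ Subgroup.centralizer {c} := by
  rintro _ ⟨y, rfl⟩
  rw [Subgroup.mem_centralizer_singleton_iff, mono_apply]
  have h1 := pm_dg_comm y.right dc (phi_dc y.right)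
  have h2 : dg y.left * c = c * dg y.left := by
    rw [c, ← map_mul, ← map_mul, mul_comm]
  change dg y.left * pm y.right * c = c * (dg y.left * pm y.right)
  rw [mul_assoc, show pm y.right * c = c * pm y.right from h1, ← mul_assoc, h2, mul_assoc]

theorem g_inv : g⁻¹ = g := by
  apply Units.ext
  rfl

theorem gt : g * t = t * g := by
  apply Units.ext
  ext i j
  have hs : ∀ k : Fin 6, (i = sg k ↔ k = sg.symm i) := fun k => by
    rw [Equiv.eq_symm_apply, eq_comm]
  simp only [Units.val_mul, Matrix.mul_apply]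
  change ∑ k, gM i k * (if k = sg j then (1 : F) else 0) =
    ∑ k, (if i = sg k then (1 : F) else 0) * gM k j
  have h1 : ∑ k, gM i k * (if k = sg j then (1 : F) else 0) = gM i (sg j) := by
    simp
  have h2 : ∑ k, (if i = sg k then (1 : F) else 0) * gM k j = gM (sg.symm i) j := by
    simp only [hs]
    simp
  rw [h1, h2]
  simp only [gM, Matrix.of_apply, Equiv.symm_apply_eq]

theorem conj_t : g * t * g⁻¹ = t := by
  rw [gt, mul_inv_cancel_right]

theorem zt : z * t = t * z := by
  have h := pm_dg_comm ⟨sg, Subgroup.mem_zpowers sg⟩ dz (phi_dz _)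
  exact h.symm

theorem conj_z_entry (i j : Fin 6) : ((g * z * g⁻¹ : GG) : Matrix (Fin 6) (Fin 6) F) i j =
    ∑ k, gM i k * (dz k : F) * gM k j := by
  rw [g_inv]
  simp only [Units.val_mul, Matrix.mul_apply]
  apply Finset.sum_congr rfl
  intro k _
  congr 1
  change ∑ l, gM i l * (z : Matrix (Fin 6) (Fin 6) F) l k = _
  rw [z]
  simp only [dg_apply, mul_ite, mul_zero, Finset.sum_ite_eq', Finset.mem_univ, if_true]

theorem conj_z_mem : g * z * g⁻¹ ∈ Subgroup.centralizer {c} := by
  rw [mem_cent]
  intro i j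
  rw [conj_z_entry, Fin.sum_univ_six]
  fin_cases i <;> fin_cases j <;> simp [gM, dz, dc] <;>
    first
      | linear_combination 2 * (zeta : F) * (zeta - 1) * two_eq
      | linear_combination -2 * (zeta : F) * (zeta - 1) * two_eq
      | ring

theorem c_comm_t : t ∈ Subgroup.centralizer {c} := by
  apply H_le
  refine ⟨SemidirectProduct.inr ⟨sg, Subgroup.mem_zpowers sg⟩, ?_⟩
  rw [mono, SemidirectProduct.lift_inr]
  rfl

/-- The subgroup `L`. -/
noncomputable def L : Subgroup GG := Subgroup.closure {z, t}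

theorem L_le : L ≤ H := by
  rw [L, Subgroup.closure_le]
  rintro y (rfl | rfl)
  · refine ⟨SemidirectProduct.inl dz, ?_⟩
    rw [mono, SemidirectProduct.lift_inl]
    rfl
  · refine ⟨SemidirectProduct.inr ⟨sg, Subgroup.mem_zpowers sg⟩, ?_⟩
    rw [mono, SemidirectProduct.lift_inr]
    rfl

theorem z_mem : z ∈ L := Subgroup.subset_closure (by simp)

theorem t_mem : t ∈ L := Subgroup.subset_closure (by simp)

theorem join_le : H ⊔ L.map (MulAut.conj g).toMonoidHom ≤ Subgroup.centralizer {c} := by
  rw [sup_le_iff]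
  refine ⟨H_le, ?_⟩
  rw [L, MonoidHom.map_closure, Subgroup.closure_le]
  rintro _ ⟨y, hy, rfl⟩
  rcases hy with rfl | rfl
  · exact conj_z_mem
  · change g * t * g⁻¹ ∈ _
    rw [conj_t]
    exact c_comm_t

theorem z7 : z ^ 7 = 1 := by
  rw [z, ← map_pow]
  have : dz ^ 7 = 1 := by
    ext1 i
    rw [Pi.pow_apply, pow7]
    rfl
  rw [this, map_one]

theorem dg7 (d : Fin 6 → Fˣ) : (dg d) ^ 7 = 1 := by
  rw [← map_pow]
  have : d ^ 7 = 1 := by
    ext1 i
    rw [Pi.pow_apply, pow7]
    rfl
  rw [this, map_one]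

theorem t5 : t ^ 5 = 1 := by
  rw [t, ← map_pow, sg5, map_one]

theorem t_ne : t ≠ 1 := by
  intro h
  have h1 := congrArg (fun y : GG => (y : Matrix (Fin 6) (Fin 6) F) 1 0) h
  simp [t, pm_apply, sg] at h1

theorem CC5 (s : CC) : s ^ 5 = 1 := by
  rw [← card_CC]; exact pow_card_eq_one'

theorem gen_of_ne (s : CC) (hs : s ≠ 1) :
    sg ∈ Subgroup.zpowers (s : Equiv.Perm (Fin 6)) := by
  have h5 : Fact (Nat.Prime 5) := ⟨by norm_num⟩
  have h1 : orderOf s = 5 := orderOf_eq_prime (CC5 s) hs
  have h2 : Subgroup.zpowers s = ⊤ := by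
    apply Subgroup.eq_top_of_card_eq
    rw [Nat.card_zpowers, h1, card_CC]
  have h3 : (⟨sg, Subgroup.mem_zpowers sg⟩ : CC) ∈ Subgroup.zpowers s := by
    rw [h2]; trivial
  obtain ⟨k, hk⟩ := h3
  refine ⟨k, ?_⟩
  have := congrArg (fun y : CC => (y : Equiv.Perm (Fin 6))) hk
  simpa using this

theorem const_of_phi (s : CC) (hs : s ≠ 1) (d : Fin 6 → Fˣ) (hd : phi s d = d) :
    ∀ i, d (sg i) = d i := by
  let P : Subgroup (Equiv.Perm (Fin 6)) :=
    { carrier := {r | ∀ i, d (r i) = d i}
      mul_mem' := by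
        intro a b ha hb i
        rw [Equiv.Perm.mul_apply, ha, hb]
      one_mem' := fun i => rfl
      inv_mem' := by
        intro a ha i
        have := ha (a⁻¹ i)
        have h0 : a (a⁻¹ i) = i := Equiv.apply_symm_apply a i
        rw [h0] at this
        exact this.symm }
  have h1 : (s : Equiv.Perm (Fin 6)) ∈ P := by
    intro i
    have := congrFun hd ((s : Equiv.Perm (Fin 6)) i)
    have h0 : (s : Equiv.Perm (Fin 6))⁻¹ ((s : Equiv.Perm (Fin 6)) i) = i :=
      Equiv.symm_apply_apply _ i
    rw [phi_apply, h0] at this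
    exact this.symm
  have h2 : Subgroup.zpowers (s : Equiv.Perm (Fin 6)) ≤ P := by
    rw [Subgroup.zpowers_le]; exact h1
  exact h2 (gen_of_ne s hs)

theorem cent_comm (x : GG) (hx : x ∈ Subgroup.centralizer {c}) (d : Fin 6 → Fˣ)
    (hd : ∀ i, d (sg i) = d i) : x * dg d = dg d * x := by
  rw [mem_cent] at hx
  have e1 : d 1 = d 0 := hd 0
  have e2 : d 2 = d 1 := hd 1
  have e3 : d 3 = d 2 := hd 2
  have e4 : d 4 = d 3 := hd 3
  have hz : (zeta : F) - 1 ≠ 0 := sub_ne_zero.mpr zeta_ne'
  have hdd : ∀ i, i ≠ 5 → d i = d 0 := by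
    intro i hi
    fin_cases i
    · rfl
    · exact e1
    · exact e2.trans e1
    · exact e3.trans (e2.trans e1)
    · exact e4.trans (e3.trans (e2.trans e1))
    · exact absurd rfl hi
  apply Units.ext
  ext i j
  simp only [Units.val_mul, dg_val, Matrix.mul_diagonal, Matrix.diagonal_mul]
  by_cases hi : i = 5
  · by_cases hj : j = 5
    · rw [hi, hj, mul_comm]
    · have h := hx i j
      rw [hi] at h ⊢
      simp only [dc, if_neg hj, if_true, Units.val_one, mul_one] at h
      have : (x : Matrix (Fin 6) (Fin 6) F) 5 j = 0 := by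
        have h' : ((zeta : F) - 1) * (x : Matrix (Fin 6) (Fin 6) F) 5 j = 0 := by
          linear_combination -h
        exact (mul_eq_zero.mp h').resolve_left hz
      rw [this, zero_mul, mul_zero]
  · by_cases hj : j = 5
    · have h := hx i j
      rw [hj] at h ⊢
      simp only [dc, if_neg hi, if_true, Units.val_one, one_mul] at h
      have : (x : Matrix (Fin 6) (Fin 6) F) i 5 = 0 := by
        have h' : ((zeta : F) - 1) * (x : Matrix (Fin 6) (Fin 6) F) i 5 = 0 := by
          linear_combination h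
        exact (mul_eq_zero.mp h').resolve_left hz
      rw [this, zero_mul, mul_zero]
    · rw [hdd i hi, hdd j hj, mul_comm]

theorem conj_z_01 : ((g * z * g⁻¹ : GG) : Matrix (Fin 6) (Fin 6) F) 0 1 ≠ 0 := by
  rw [conj_z_entry, Fin.sum_univ_six]
  simp [gM, dz]
  intro h
  apply zeta_ne'
  linear_combination h - ((zeta : F) + 1) * two_eq

theorem no_x (x : GG) (hx : x ∈ H ⊔ L.map (MulAut.conj g).toMonoidHom)
    (hL : L.map (MulAut.conj (x * g)).toMonoidHom ≤ H) : False := by
  have hxB := join_le hx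
  have hz2 : x * g * z * (x * g)⁻¹ ∈ H := hL ⟨z, z_mem, rfl⟩
  have ht2 : x * g * t * (x * g)⁻¹ ∈ H := hL ⟨t, t_mem, rfl⟩
  obtain ⟨y, hy⟩ := hz2
  obtain ⟨u, hu⟩ := ht2
  -- y has trivial right component
  have hy7 : y ^ 7 = 1 := by
    apply mono_inj
    rw [map_pow, map_one, hy, conj_pow, z7]
    group
  have hyr : y.right = 1 := by
    have h1 : y.right ^ 7 = 1 := by
      have := congrArg (SemidirectProduct.rightHom) hy7
      rw [map_pow, map_one] at this
      exact this
    have h2 := CC5 y.right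
    have h3 : y.right ^ 10 = 1 := by
      rw [show (10 : ℕ) = 5 * 2 from rfl, pow_mul, h2, one_pow]
    have h4 : y.right ^ 21 = 1 := by
      rw [show (21 : ℕ) = 7 * 3 from rfl, pow_mul, h1, one_pow]
    have h5 : y.right ^ 20 = 1 := by
      rw [show (20 : ℕ) = 5 * 4 from rfl, pow_mul, h2, one_pow]
    rw [pow_succ, h5, one_mul] at h4
    exact h4
  have hur : u.right ≠ 1 := by
    intro h
    apply t_ne
    have h1 : mono u = dg u.left := by
      rw [mono_apply, h]
      change dg u.left * pm 1 = _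
      rw [map_one, mul_one]
    have h2 : (x * g * t * (x * g)⁻¹) ^ 7 = 1 := by
      rw [← hu, h1, dg7]
    rw [conj_pow] at h2
    have h3 : t ^ 7 = 1 := by
      have := h2
      rw [mul_inv_eq_one] at this
      exact mul_left_cancel (this.trans (mul_one _).symm)
    have h4 : t ^ 21 = 1 := by
      rw [show (21 : ℕ) = 7 * 3 from rfl, pow_mul, h3, one_pow]
    have h5 : t ^ 20 = 1 := by
      rw [show (20 : ℕ) = 5 * 4 from rfl, pow_mul, t5, one_pow]
    rw [pow_succ, h5, one_mul] at h4
    exact h4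
  have hcomm : y * u = u * y := by
    apply mono_inj
    rw [map_mul, map_mul, hy, hu]
    have := zt
    calc x * g * z * (x * g)⁻¹ * (x * g * t * (x * g)⁻¹)
        = x * g * (z * t) * (x * g)⁻¹ := by group
      _ = x * g * (t * z) * (x * g)⁻¹ := by rw [zt]
      _ = _ := by group
  have hphi : phi u.right y.left = y.left := by
    have h1 := congrArg SemidirectProduct.left hcomm
    rw [SemidirectProduct.mul_left, SemidirectProduct.mul_left, hyr, map_one,
      MulAut.one_apply, mul_comm] at h1
    exact (mul_left_cancel h1).symm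
  have hconst := const_of_phi u.right hur y.left hphi
  have hyd : mono y = dg y.left := by
    rw [mono_apply, hyr]
    change dg y.left * pm 1 = _
    rw [map_one, mul_one]
  have hc := cent_comm x hxB y.left hconst
  have hfin : g * z * g⁻¹ = dg y.left := by
    rw [hyd] at hy
    have h1 : x * (g * z * g⁻¹) = x * dg y.left := by
      rw [hc, hy]
      group
    exact mul_left_cancel h1
  apply conj_z_01
  rw [hfin, dg_apply, if_neg (by decide)]

end Pool.Agent.K7.H92.SP
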